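import Pool.Agent.H97.PRP.Targets2

/-!
# MP_e37c09_lc, row LTS of the board prp_modules: local definability (helper51)
-/

open Ordinal Cardinal Order Set
open scoped ZFSet
open _root_.HD HD.PRK HD.PRP

universe u

namespace Pool.Agent.H51.PRP

theorem posX_congr {μ ρ : Ordinal.{u}} {P Q : ZFSet.{u} → Prop} (h : ∀ x, P x ↔ Q x) :
    PosX μ ρ P ↔ PosX μ ρ Q := by
  have : P = Q := funext fun x => propext (h x)
  rw [this]

/-- the family `Fs` is in `V_ η` -/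
theorem fs_mem {η : Ordinal.{u}} (hη : Gd η) {κ : ZFSet.{u}} (hκ : κ ∈ V_ η) (h : κ.IsOrdinal)
    (G s : ZFSet.{u}) : Fs κ.rank G s ∈ V_ η := by
  refine mem_V_of_sub (y := ZFSet.prod (ZFSet.powerset κ) κ) ?_ (hη.prod (hη.powerset hκ) hκ)
  intro z hz
  unfold Fs at hz
  rw [h.toZFSet_rank_eq] at hz
  exact (ZFSet.mem_sep.1 hz).1

theorem pf_LTS (h0 : HD.PRK.T_LPX.{u}) (h1 : HD.PRK.T_LFW.{u}) (h2 : T_FSL.{u}) :
    T_LTS.{u} := by
  have hL := h0 (fun s v => ∃ F, ((v 1).IsOrdinal ∧ F = Fs (v 1).rank (v 2) s) ∧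
    ¬ ((v 0).IsOrdinal ∧ (v 1).IsOrdinal ∧ (v 1).IsOrdinal ∧ (v 3).IsOrdinal ∧
      Few (v 3).rank {i | i < (v 1).rank ∧ Spl (v 0).rank (v 1).rank F i})) ?_ 0 1
  · refine Loc.congr (hL.and (loc_ord 3)) fun v => ?_
    constructor
    · rintro ⟨a0, a1, a3, hp⟩
      refine ⟨⟨a0, a1, (posX_congr fun s => ?_).1 hp⟩, a3⟩
      constructor
      · intro hn
        exact ⟨_, ⟨a1, rfl⟩, fun hf => hn hf.2.2.2.2⟩
      · rintro ⟨_, ⟨-, rfl⟩, hn⟩ hf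
        exact hn ⟨a0, a1, a1, a3, hf⟩
    · rintro ⟨⟨a0, a1, hp⟩, a3⟩
      refine ⟨a0, a1, a3, (posX_congr fun s => ?_).2 hp⟩
      constructor
      · intro hn
        exact ⟨_, ⟨a1, rfl⟩, fun hf => hn hf.2.2.2.2⟩
      · rintro ⟨_, ⟨-, rfl⟩, hn⟩ hf
        exact hn ⟨a0, a1, a1, a3, hf⟩
  · refine Loc.ex (R := fun F v => ((v 2).IsOrdinal ∧ F = Fs (v 2).rank (v 3) (v 0)) ∧
      ¬ ((v 1).IsOrdinal ∧ (v 2).IsOrdinal ∧ (v 2).IsOrdinal ∧ (v 4).IsOrdinal ∧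
        Few (v 4).rank {i | i < (v 2).rank ∧ Spl (v 1).rank (v 2).rank F i})) ?_ ?_
    · exact (h2.ren fun n => if n = 0 then 0 else if n = 1 then 3 else if n = 2 then 4 else 1).and
        (h1.ren fun n => if n = 0 then 2 else if n = 1 then 3 else if n = 2 then 0 else
          if n = 3 then 3 else 5).not
    · rintro η hη v hv x ⟨⟨h3, rfl⟩, -⟩
      exact fs_mem hη (hv 2) h3 _ _

end Pool.Agent.H51.PRP
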